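import Pool.Agent.Q82.OC.Gal

/-!
# The Tate conjecture in one codimension on the square of a variety: Galois representations

Let `X` be a smooth projective variety of dimension `n` over a finitely generated field `k₁`, `k` an
algebraic closure, `W` the `ℓ`-adic cohomology of varieties over `k` (or any Weil cohomology theory),
and `Γ` the Galois group of `k₁`, which acts on the cohomology of `X` and of `X × X` (`GalSq`: the
formal properties of these actions). A Tate class of codimension `q` is a class `c` of degree `2 q` with
`g c = χ(g) ^ q c` for all `g` in a subgroup of finite index, `χ` the cyclotomic character. Let `D` be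
a divisor on `X` with hard Lefschetz and `d < n`.

1. The Tate conjecture for `X × X` in the **one** codimension `d` is equivalent to the algebraicity of
   all Tate classes on `X × X` of the Kunneth types `(a, b)` with `|n - a| + |n - b| ≥ 2 (n - d)`, of
   all codimensions. (A class of Kunneth type `(2 n - j, j')` is one that acts as zero on `H^i(X)` for
   `i ≠ j` and maps `H^j(X)` to `H^(j')(X)`.)

2. It implies:
* for all `i`, `i'` in `[0, d] ∪ [2 n - d, 2 n]`, every homomorphism of Galois representations (of a
  subgroup of finite index) from `H^i(X)` to a Tate twist of `H^(i')(X)` is given by a linear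
  combination of algebraic cycles on `X × X`;
* the Tate conjecture for `X × X` in all codimensions `q ≤ d` and `q ≥ 2 n - d`;
* the Tate conjecture for `X` in all codimensions `q ≤ d` and `q ≥ n - d`, so in all codimensions if
  `n ≤ 2 d + 1`;
* the Lefschetz standard conjecture for `X` in the degrees `i ≤ d`: the class on `X × X` which induces
  the inverse of `D^(n-i) : H^i(X) → H^(2n-i)(X)` is a linear combination of classes of cycles.

No semisimplicity and no standard conjecture is assumed.
-/

set_option autoImplicit false

open CategoryTheory AlgebraicGeometry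

universe u v w

namespace Pool.Agent.Results.MP_640417_ag.LowCodimensionOnSquares

open Pool.Agent.H914 VarClass Obj Pool.Agent.Q82.OC

/-- **The Tate conjecture in one codimension on the square.** -/
theorem result {k : Type u} [Field k] {𝒱 : VarClass k} {ops : CycleOps 𝒱}
    (W : WeilCohomology.{u, v} ops) (X : 𝒱.Obj) (Γ : Type w) [Group Γ] (G : GalSq W X Γ)
    (D : X.Cycles) (hD : X.IsCyc 1 D) (hHL : HardLefschetz W X D) (d : ℕ) (hd : d < X.dim) :
    (TateSqIn G d ↔ FarTypes W X d (TateSq G)) ∧
    (TateSqIn G d →
      OuterHomsAlgebraic G d ∧
      (∀ q, q ≤ d ∨ 2 * X.dim - d ≤ q → TateSqIn G q) ∧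
      (∀ q, q ≤ d ∨ X.dim - d ≤ q → TateXIn G q) ∧ ∀ i ≤ d, InverseIsComb W X D i) :=
  ⟨gal_region hD hHL hd, fun h => ⟨gal_hom hD hHL hd h,
    fun _ hq => gal_range hD hHL hd h hq, fun _ hq => gal_self hD hHL hd h hq,
    fun _ hi => gal_inverse hD hHL hd h hi⟩⟩

end Pool.Agent.Results.MP_640417_ag.LowCodimensionOnSquares
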