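import Mathlib
import Pool.Agent.Q65.TA
import Pool.Agent.Y114.RM.All3

/-!
# The Tate conjecture in all degrees for motives with a motivic group of type A, at every prime `ℓ`,
# and the centre of the `ℓ`-adic monodromy Lie algebra for all motives

Let `M i` be finitely many pure motives (direct factors of the cohomology of smooth projective
varieties, cut out by correspondences, with a Tate twist; for example the total cohomology of a
variety `X i`) over a finitely generated field `k` of characteristic zero, pure of weight `w i`, `V i`
their `ℓ`-adic realizations for ONE prime number `ℓ`, and `V` the direct sum.  Let `𝔤` be the Lie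
algebra, over `ℚ_ℓ`, of the motivic Galois group `G` of the sum of the `M i`: the group of the
automorphisms which fix all algebraic classes on the tensor constructions (if numerical and
homological equivalence agree for them), or all motivated classes (André), or all absolute Hodge
classes.  The property `Motivic ρ 𝔤` (structure `IsMotivic`) states the properties of `𝔤` which are
used: it is a Lie algebra, it respects the direct sum, it is reductive (trace form nondegenerate,
completely reducible on `V`), it consists of all endomorphisms which kill the tensors killed by `𝔤`,
and these tensors (the algebraic, motivated, ... classes) are Tate tensors (fixed by a subgroup of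
finite index of the Galois group).  Nothing is assumed on the irreducibility, the semisimplicity or
the endomorphisms of the Galois representations, on Hodge numbers or on polarizations.

The representations come from a profinite group `Γ` (the Galois group of `k` or the fundamental group
of a model `U` of `k`), and `s` is the homomorphism from the Galois group of a number field `F` to
`Γ` given by a closed point of the generic fibre of `U` (if `k = F` is a number field, `s` is the
identity).  Suppose:

(0) (as in `MP_8f1292_ag.MaximalFrobeniusTorus`) there are three primes `p ≠ ℓ`, unramified in `F`, such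
that the fibre at `s` has good reduction at the places above `p`, with pure Frobenius polynomials in
`ℚ[X]`, and at ONE place `v₀` above one of these primes `p₀` there are `r` multiplicatively independent
Frobenius eigenvalues, where the rank of `𝔤` is at most `r`; if there are several places above `p₀` they
are independent (`IndependentPlaces`; nothing is to be supposed if `F = ℚ`, or if there is only one
place above `p₀`).

(1) One of the following: (`CentralCommutes`) the endomorphisms in the centre of the algebra of the
Tate endomorphisms of `V i` (the endomorphisms which commute with a subgroup of finite index of `Γ`)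
commute with the Galois group of `F`; this is so if the Zariski closure of the image of the Galois group
of `F` is connected, and by a theorem of Serre this does not depend on `ℓ`.  Or
(`GeneratedByMaximalElements`): the elements of the Galois group of `F` (for example Frobenius elements)
with rational characteristic polynomials and with `r` multiplicatively independent eigenvalues are not
contained in a proper subgroup of finite index.

**Theorem.**  (a) The representation `V` is semisimple for all subgroups of finite index of `Γ`.
(b) The Lie algebra `𝔥` of all endomorphisms of `V` which kill all Tate tensors is a reductive Lie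
subalgebra of `𝔤` of the same rank, AND its centre consists of the multiples of the weight
homothety (which acts on `V i` as `w i`).
(c) Suppose that `𝔤` has no proper Lie subalgebra with nondegenerate trace form, of the same
rank, whose centre is contained in the centre of `𝔤` (`NoSmallerOfSameRank`).  By the classification
of the root subsystems of maximal rank by Borel and de Siebenthal this is so if all simple factors of
`𝔤`, over an algebraic closure, are of type `A` (the proper subsystems of type `A` are those of Levi
subalgebras, whose centres are larger).  Then the Tate tensors are exactly the tensors killed by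
`𝔤`: every tensor on `V` and its dual space (of any degree) which is fixed by a subgroup of finite
index of the Galois group is a combination of algebraic (motivated, ...) classes.  So the Tate
conjecture holds, in all degrees, for all products of the varieties `X i`, if their numerical and
homological equivalence agree, and the exotic Tate classes are algebraic.

The condition in (c) is a condition on the motivic group only, and one can take all representations of
such groups: motives with coefficients in a CM field with a hermitian form, of any rank and
signature (for instance the nonselfdual motives of rank `3` of van Geemen and Top), tensor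
constructions of motives of rank two, and motives with an orthogonal form of rank `3`, `4` or `6` (types
`A₁`, `A₁ × A₁` and `A₃`), with arbitrary Hodge numbers, for instance the transcendental part of the
second cohomology of a surface of any geometric genus, if it has rank `3`, `4` or `6`; and
arbitrary sums of such motives.  The statement is for every `ℓ` outside of the residue characteristics
of (0), and the condition (0) on one Frobenius polynomial does not depend on `ℓ`.

The proof.  Let `L` be the Lie algebra of the endomorphisms which kill all Tate tensors and preserve
the subspaces stable under open subgroups.  By (0) and the results of the library `L` is reductive and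
contains the torus `t` of the Frobenius element, which is a Cartan subalgebra of `𝔤`.  Let `X` be in the
centre of `L`.  By (1) its blocks commute with the Galois group of `F`: in the second case because
`X` is in the tori of the elements in (1), as these are their own centralizers.  And `X` is in `t`: there
is a homomorphism `θ` from `ℂ^×` to `ℂ` such that `X` acts as `θ(a)` on the generalized eigenspace of
the Frobenius element for `a`.  For an eigenvalue `λ` of `X` on `V i` the projection on the eigenspace has
coefficients in a finite extension `E` of `ℚ_ℓ`, and it commutes with the Galois group.  So the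
determinant on the eigenspace is a character with values in `E^×`, with algebraic Frobenius values.  The
`ℓ`-adic six exponentials theorem (for `E`) and the product formula show that its transfer to `ℚ` is of
finite order after normalization by the determinant of `V i`, and the independence of the places above
`p₀` gives the same for its value at `v₀`.  So a power of the square of the product of the eigenvalues
`a` with `θ(a) = λ` is a power of `q ^ (w i)`, and `λ = w i θ(q) / 2`.  This proves (b), and (c) follows.
-/

set_option autoImplicit false

namespace Pool.Agent.Results.MP_640417_ag.MotivicGroupOfTypeA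

open NumberField IsDedekindDomain Polynomial Module Pool.Agent.Y114.TF Pool.Agent.Y114.GF
  Pool.Agent.Y114.MU Pool.Agent.Y114.RM Pool.Agent.H204R3.GP

section general

variable {k : Type} [Field k] {V : Type} [AddCommGroup V] [Module k V] {Γ : Type} [Group Γ]
  (ρ : Representation k Γ V)

/-- `z` is a Tate endomorphism: it commutes with a subgroup of finite index. -/
def IsTateEnd (z : End k V) : Prop :=
  ∃ Δ : Subgroup Γ, Δ.FiniteIndex ∧ ∀ γ ∈ Δ, z * ρ γ = ρ γ * z

/-- `z` is in the centre of the algebra of the Tate endomorphisms. -/
def IsCentralTateEnd (z : End k V) : Prop :=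
  IsTateEnd ρ z ∧ ∀ y, IsTateEnd ρ y → z * y = y * z

/-- `X` commutes with all elements of `𝔥`. -/
def CommutesWith (X : End k V) (𝔥 : Submodule k (End k V)) : Prop := ∀ Y ∈ 𝔥, X * Y = Y * X

/-- The centre of `𝔥` is contained in the centre of `𝔤`. -/
def CentreIn (𝔥 𝔤 : Submodule k (End k V)) : Prop :=
  ∀ X ∈ 𝔥, CommutesWith X 𝔥 → CommutesWith X 𝔤

end general

section defs

variable {Γ : Type} [Group Γ] {ι : Type} {n : ι → ℕ} {ℓ : ℕ} [Fact ℓ.Prime]
  (ρ : Reps Γ n ℓ) (𝔤 : EndSpace n ℓ)

/-- (1), first case: the central Tate endomorphisms of the summands commute with the image of `s`. -/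
def CentralCommutes {Δ : Type} [Group Δ] (s : Δ →* Γ) : Prop :=
  ∀ i z, IsCentralTateEnd (ρ i) z → ∀ σ, z * ρ i (s σ) = ρ i (s σ) * z

/-- `γ` has rational characteristic polynomials, with `r` multiplicatively independent
eigenvalues. -/
def IsMaximalElement (r : ℕ) (γ : Γ) : Prop :=
  ∃ Q : ι → ℚ[X], (∀ i, HasPoly ρ i γ (Q i)) ∧ IndepRoots r (Set.range Q)

/-- (1), second case: the elements `σ` such that `s σ` has `r` multiplicatively independent
eigenvalues are not contained in a proper subgroup of finite index. -/
def GeneratedByMaximalElements {Δ : Type} [Group Δ] (s : Δ →* Γ) (r : ℕ) : Prop :=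
  ∀ N : Subgroup Δ, N.FiniteIndex → (∀ σ, IsMaximalElement ρ r (s σ) → σ ∈ N) → N = ⊤

variable [DecidableEq ι]

/-- `X` acts on the summand `i` as `c` times the weight `w i`. -/
def IsWeightMultiple (w : ι → ℤ) (X : End ℚ_[ℓ] (∀ i, Fin (n i) → ℚ_[ℓ])) : Prop :=
  ∃ c : ℚ_[ℓ], ∀ i (x : Fin (n i) → ℚ_[ℓ]), X (Pi.single i x) = ((w i : ℚ_[ℓ]) * c) • Pi.single i x

/-- The centre of `𝔥` consists of multiples of the weight homothety. -/
def CentreIsWeight (w : ι → ℤ) (𝔥 : Submodule ℚ_[ℓ] (End ℚ_[ℓ] (∀ i, Fin (n i) → ℚ_[ℓ]))) : Prop :=
  ∀ X ∈ 𝔥, CommutesWith X 𝔥 → IsWeightMultiple w X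

omit [DecidableEq ι] in
/-- `𝔤` has no proper Lie subalgebra with nondegenerate trace form, of rank at least `r`, whose
centre is contained in the centre of `𝔤`. -/
def NoSmallerOfSameRank (r : ℕ) : Prop :=
  ∀ 𝔥 : EndSpace n ℓ, ReductiveOfRank 𝔤 𝔥 r → CentreIn 𝔥 𝔤 → 𝔥 = 𝔤

end defs

theorem result {F : Type} [Field F] [NumberField F] {Γ : Type} [Group Γ] [TopologicalSpace Γ]
    [IsTopologicalGroup Γ] [CompactSpace Γ] {ι : Type} [Fintype ι] [DecidableEq ι] {n : ι → ℕ}
    {ℓ : ℕ} [Fact ℓ.Prime]
    -- the `ℓ`-adic realizations, and the specialization
    (ρ : Reps Γ n ℓ) (hρ : Conts ρ) (s : Gal(AlgebraicClosure F/F) →* Γ) (hs : Continuous s)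
    (w : ι → ℤ)
    -- the Lie algebra of the motivic Galois group
    (𝔤 : EndSpace n ℓ) (h𝔤 : Motivic ρ 𝔤)
    -- (0) three primes of good reduction, and one Frobenius torus of maximal rank
    (P : HeightOneSpectrum (𝓞 F) → ι → ℚ[X]) (T : Set ℕ) (hT3 : 3 ≤ T.encard)
    (hT : ∀ p ∈ T, p.Prime ∧ p ≠ ℓ ∧ UnramifiedIn F p)
    (hP : ∀ p ∈ T, ∀ v, Above v p → ∀ i, GoodReduction (restrictTo ρ s) i (w i) v (P v i))
    (p₀ : ℕ) (hp₀ : p₀ ∈ T) (hind : IndependentPlaces P p₀)
    (v₀ : HeightOneSpectrum (𝓞 F)) (hv₀ : Above v₀ p₀)
    (r : ℕ) (hr : IndepRoots r (Set.range (P v₀))) (hrank : RankLE 𝔤 r)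
    -- (1)
    (h1 : CentralCommutes ρ s ∨ GeneratedByMaximalElements ρ s r) :
    -- (a), (b), (c)
    Semisimple ρ ∧
      (∃ 𝔥 : EndSpace n ℓ, KillsTateTensors ρ 𝔥 ∧ ReductiveOfRank 𝔤 𝔥 r ∧ CentreIsWeight w 𝔥) ∧
      (NoSmallerOfSameRank 𝔤 r → TateTensorsOf ρ 𝔤) := by
  obtain ⟨hss, 𝔥, h2, h3, h4⟩ := Pool.Agent.Q65.KL.main_homothety inputs inputs2 inputs3.rank ρ hρ 𝔤
    h𝔤 s hs P T hT3 hT (fun p hp v hv => goodPlace_of (restrictTo ρ s) (hP p hp v hv)) hp₀ hind hv₀ r
    (independentRoots_range hr) hrank (by
      rcases h1 with h1 | h1
      · exact Or.inl fun i z hz hz' => h1 i z ⟨hz, hz'⟩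
      · refine Or.inr fun N hN hN' => h1 N hN ?_
        rintro σ ⟨Q, hQ, hrQ⟩
        exact hN' σ Q hQ (independentRoots_range hrQ))
  refine ⟨hss, ⟨𝔥, h2, h3, h4⟩, fun h5 => ?_⟩
  have h𝔤' : IsMotivic ρ 𝔤 := h𝔤
  have h6 : 𝔥 = 𝔤 := by
    refine h5 𝔥 h3 fun X hX hXY Y hY => ?_
    obtain ⟨c, hc⟩ := h4 X hX hXY
    have h7 : ∀ (i : ι) (x : Fin (n i) → ℚ_[ℓ]),
        X (Y (Pi.single i x)) = Y (X (Pi.single i x)) := by
      intro i x
      have h8 := Pool.Agent.Q65.KL.single_parts' (h𝔤'.parts Y hY) i x
      rw [h8, hc, hc, map_smul, h8, Pi.single_eq_same]
    refine LinearMap.ext fun x => ?_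
    rw [Module.End.mul_apply, Module.End.mul_apply, ← Finset.univ_sum_single x, map_sum, map_sum,
      map_sum, map_sum]
    exact Finset.sum_congr rfl fun i _ => h7 i (x i)
  intro m φ
  refine ⟨fun hφ X hX => ?_, h𝔤'.tate m φ⟩
  exact (h2 X).1 (by rw [h6]; exact hX) m φ hφ

end Pool.Agent.Results.MP_640417_ag.MotivicGroupOfTypeA
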