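import Pool.Agent.Q71.SP.Cnv

/-!
# The Tate conjecture for products of powers of varieties with symplectic monodromy with other
# varieties

Let `k` be an algebraically closed field which is the algebraic closure of a field `F` finitely
generated over `ℚ`, let `Γ` be the Galois group of `F`, `W` the `ℓ`-adic cohomology of the varieties
over `k` with algebraically closed coefficient field `K`, and `χ` the inverse of the cyclotomic
character (so that the condition `g c = χ(g)^j c` for `c ∈ H^(2j)` says that `c` is an invariant of
`H^(2j)(j)`). The theorem is proved for an abstract Weil cohomology theory with an action of a group.

Let `X_i` be varieties over `F` of odd dimension for which numerical and homological equivalence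
coincide (for example curves), whose transcendental cohomology `T_i` (the orthogonal complement of
all algebraic classes) is concentrated in the middle degree and irreducible under every open
subgroup. Suppose that for every `i` some element of `Γ` acts on `T_i` by a transvection (for
example, an element of the inertia group at a place of toric rank one, or of a Picard-Lefschetz
degeneration), or with the slopes `h + c`, `h - c`, once each, and `h`. Suppose that the `T_i` are not
isomorphic to each other up to a twist.

Let `Z` be any variety whose cohomology algebra is generated by representations `U` which are small
in comparison with the `T_i`, of dimension `r_i`: `U` carries an alternating form up to a character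
and `dim U < r_i`, or a symmetric form and `dim U ≤ r_i`; or `2 (dim U)^2 < r_i (r_i + 1)`; or some
element acts on `T_i` with `(g - 1)^2 = 0` and `g - 1` of rank `d`, and unipotently on `U`, such that
`2 (d_1^2 + 2 d_2 dim U) < d (d + 1)` where `d_1`, `d_2` are the ranks of `g - 1`, `(g - 1)^2` on `U`
(a comparison of the toric ranks at a place); or a condition on the slopes of some element.
No element of `Γ` is supposed to act trivially on the cohomology of `Z` and nontrivially on `T_i`.

For example, let `C_i` be pairwise nonisogenous curves (their Jacobians, over `k`) of genus `g_i ≥ 1`,
absolutely simple and with toric rank one at some place, and `Z` any product of curves of genus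
smaller than all `g_i`, or any variety whose cohomology is generated by such `H^1`.

**Theorem.** Let `Y = X_1^(n_1) × (X_2^(n_2) × ( ⋯ × Z))`, with arbitrary exponents. The Tate
conjecture holds for `Y` if and only if it holds for `Z`, in all codimensions. In this case all Tate
classes of `Y` over a finite extension of `F` are combinations of classes of cycles which are
invariant under its Galois group.

The proof: the logarithm of a transvection is a root element of the Lie algebra of all simultaneous
derivations of the equivariant multilinear maps; a Lie algebra which contains a long root element and
is normalised by a strongly irreducible group is the whole symplectic Lie algebra; different members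
are independent because every isomorphism of symplectic Lie algebras comes from a linear map (the
long root elements are the elements of rank one). A member is independent from `U` because the rank of
`ad(log g)^2` on the symplectic Lie algebra is `d (d + 1) / 2`. The invariants are given by the first
fundamental theorem.
-/

universe u

namespace Pool.Agent.Results.MP_640417_ag.SymplecticTowers

open Pool.Agent.H914 Pool.Agent.TH125.Gal Pool.Agent.Q71.TM.P Pool.Agent.Q71.SP.P

/-- **The Tate conjecture for products of powers of varieties with symplectic monodromy with other
varieties.** -/
theorem result {k : Type u} [Field k] {𝒱 : VarClass k} {ops : CycleOps 𝒱}
    {W : WeilCohomology.{u, 0} ops} (hK : IsAlgClosed W.K) {Γ : Type} [Group Γ] {D : Tw W.K Γ}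
    {ι : Type} {X : ι → GVar W Γ} {Z : GVar W Γ}
    (hX : SympFamily D X Z) {S : Set ι} {Y : GVar W Γ} (hY : Towers X Z S Y)
    (hG : GaloisType D Y) :
    (Tate D Y ↔ Tate D Z) ∧
    (Tate D Z → ∀ Δ : Subgroup Γ, Δ.FiniteIndex → TateOver D Δ Y) :=
  final_symp hX hY hG

end Pool.Agent.Results.MP_640417_ag.SymplecticTowers
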