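import Mathlib
import Pool.Agent.Q70.HN.Good

/-!
# Tate classes on the products of abelian varieties with varieties of small Hodge numbers

Let `k` be an algebraic closure of a field finitely generated over `ℚ`, and `A`, `Z` an abelian variety
and a smooth projective variety over `k`, with models over a finitely generated subfield `k₁`. Let
`γ` be a Frobenius element of the Galois group `Γ` of `k₁` at **one** closed point of good reduction of
`A` and `Z`, the residue field having `q = p ^ a` elements. We suppose for `A`:

* the characteristic polynomial of `γ` on `V = V_ℓ (A)` is the product of the minimal polynomials of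
  **ordinary** Weil numbers `π i` (`i` in a finite set) which generate CM fields `F i`;
* the functions `n` on the complex embeddings of `F i` with `n (conj φ) = - n φ` are an absolutely
  irreducible representation of the automorphisms of `ℂ` (`OddAbsolutelyIrreducible`), and there are
  no equivariant maps between those of `F i` and `F i'` for `i ≠ i'` (`Unrelated`).

The second condition is the generic case; it is true, for example, if the Galois group of the normal
closure of `F i` consists of all permutations of the embeddings compatible with the complex
conjugation, or if some automorphism exchanges one embedding with its complex conjugate and fixes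
all the others. (So `A` is isogenous to a product of pairwise non-isogenous simple factors, for
example of complex multiplication by `F i`, or without complex multiplication.)

The only condition on `Z` concerns its Hodge numbers. Let `h i = h ^ (i, w - i) (Z)` and

  `spread w h = ∑ i, h i * (2 i - w) ^ 2 = ∑ h ^ (i, j) (i - j) ^ 2` (the sum over `i + j = w`).

**Theorem.** If for all `i` the number `spread w h` is less than the degree `[F i : ℚ]`, or `w` is even
and it is less than `2 [F i : ℚ]` (`SmallHodge`), then **the classes in `H^j(A ^ r) ⊗ H^w(Z)` which are
fixed by an open subgroup of `Γ` (for any Tate twist) are zero for odd `j`, and for `j = 2 m` they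
are linear combinations of products of `m` Tate classes of degree two on `A ^ r` and of Tate classes
in `H^w(Z)`** (`ClassesSplit`), for all `r`. The classes in `H^j(A ^ r) ⊗ H^w(Z)` are the
alternating maps of `j` variables from `V ^ r` to `M = H^w(Z)` (up to duality and twists). The Tate
classes of degree two on `A ^ r` are algebraic by the theorem of Faltings. So **if the condition holds
for all `w ≤ 2 dim Z`, then the Tate conjecture for `A ^ r × Z` in all codimensions, for all `r`,
follows from the Tate conjecture for `Z`.**

For example let `F i` have the degree at least `2 g` for all `i` (if `A` is absolutely simple,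
`g = dim A`). The condition is (third part of the theorem)

* for `w = 1`, `3` and a surface `Z`: `b_1(Z) < 2 g`;
* **for `w = 2`: `p_g(Z) < g / 2`**; there is no condition on `h ^ (1, 1)` (for instance all K3
  surfaces, for `g ≥ 3`; for these the Tate conjecture is known, André, Tankeev);
* for `w = 3`: `9 h ^ (3, 0) + h ^ (2, 1) < g`;
* for all even `w`, it is true if `H^w(Z)` is spanned by algebraic classes.

The last hypothesis on `f`, the characteristic polynomial of `γ` on `H^w(Z)`, is `HasHodgeNumbers`: its
roots have the absolute value `q ^ (w / 2)` (Deligne), and the Newton polygon lies above the Hodge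
polygon (Mazur, Ogus). No other information on `Z` or on its Galois representation is used; in
particular the image of the Galois group on `H^w(Z)`, its endomorphisms and the Mumford–Tate
conjecture for `Z` play no role, and `ℚ(α)`, for the eigenvalues `α`, may be related to the fields
`F i` in any way. `M` may also be any subquotient of `H^w(Z)`.

The second part is the general statement, where the `π i` are not supersingular, but they need not be
ordinary: the sum of the squared deviations of the Hodge slopes is to be smaller than that of the
slopes of `π i` (`SmallFor`; for even `w` a factor two is gained).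

Relation to the starting files. `NoExoticBelowRoot`, `FrobeniusPrimePower`, `MixedFrobenius` (this
folder) and related theorems for other problems are about Tate classes on the powers of `A` itself.
The starting theorem `AbelianTimesKThree` (MP_2a05c8_ag) treats K3 surfaces over finite fields and
fields `F i` with flips. Of this team, `SmallSlopeDeviation` (MP_2a05c8_ag, helper70) has the
condition that each eigenvalue `α` of `γ` is unrelated to `F i` or has slopes of small mean square
deviation. New here: conditions on the Hodge numbers only, for all varieties `Z`.

The proof. A multiplicative relation between an eigenvalue `α` and conjugates of the `π i` which is not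
trivial at `i` gives, by a second moment (Schur) argument for the slopes, that the mean square
deviation of the slopes of `α` is at least that of `π i`, which is `1 / 4` (`1 / 2` for even weight);
and that `α` has at least `[F i : ℚ]` conjugates, because the exponents of the relation are an odd
function, whose conjugates span all odd functions, and their number is at most the degree of `α`. So
the sum of the squared deviations for the roots of `f` is at least `[F i : ℚ] / 4`. But it is at most
`spread w h / 4`, because the Newton polygon lies above the Hodge polygon (Abel summation).
-/

set_option autoImplicit false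

namespace Pool.Agent.Results.MP_640417_ag.TimesSmallHodgeNumbers

open NumberField Module IntermediateField Pool.Agent.Y137.MV Pool.Agent.Y137.SL
  Pool.Agent.Q70.SQ Pool.Agent.Q70.HN

/-- The Tate classes on `A ^ r × Z` come from `A ^ r` in degree two and from `Z`, whenever the
characteristic polynomial of `γ` on `V` is the product of the minimal polynomials of the `π i` and
`γ` satisfies on `M` the equation of a polynomial with the Hodge numbers `h` in weight `w`, where `w`
and `h` have the property `P`. -/
def SplitsFor (p : ℕ) [Fact p.Prime] (a : ℕ) {I : Type} [Fintype I] (F : I → Type)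
    [∀ i, Field (F i)] [∀ i, NumberField (F i)] [∀ i, IsCMField (F i)] (π : ∀ i, F i)
    (P : ℕ → (ℕ → ℕ) → Prop) : Prop :=
  ∀ (k : Type) [Field k] [CharZero k] (V : Type) [AddCommGroup V] [Module k V]
    [FiniteDimensional k V] (M : Type) [AddCommGroup M] [Module k M] [FiniteDimensional k M]
    (Γ : Type) [Group Γ] (ρ : Representation k Γ V) (τ : Representation k Γ M) (χ : Γ →* k)
    (γ : Γ), IsPolarised ρ χ γ p a π →
    ∀ (w : ℕ) (h : ℕ → ℕ) (f : Polynomial ℚ), HasHodgeNumbers p a w h f →
      Polynomial.aeval (τ γ) (f.map (algebraMap ℚ k)) = 0 → P w h → ClassesSplit ρ χ τ

/-- **The Tate conjecture for `A ^ r × Z` follows from the Tate conjecture for `Z`, for the abelian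
varieties `A` with one ordinary Frobenius element with absolutely irreducible, unrelated CM fields of
degree greater than `∑ h ^ (i, j) (i - j) ^ 2` (or half of this number, for even weight), where
`h ^ (i, j)` are the Hodge numbers of `Z`.** The second part is about Weil numbers which are not
ordinary, the third one evaluates the condition in low weights. -/
theorem result :
    (∀ (p : ℕ) [Fact p.Prime] (a : ℕ) (I : Type) [Fintype I] (F : I → Type)
      [∀ i, Field (F i)] [∀ i, NumberField (F i)] [∀ i, IsCMField (F i)] (π : ∀ i, F i),
      0 < a → (∀ i, ℚ⟮π i⟯ = ⊤) →
      (∀ i, π i * IsCMField.complexConj (F i) (π i) = (p : F i) ^ a) →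
      (∀ i, OddAbsolutelyIrreducible (F i)) → (∀ i i', i ≠ i' → Unrelated (F i) (F i')) →
      (∀ i, IsOrdinary p a (π i)) →
      SplitsFor p a F π (fun w h => ∀ i, SmallHodge w h (finrank ℚ (F i)))) ∧
    (∀ (p : ℕ) [Fact p.Prime] (a : ℕ) (I : Type) [Fintype I] (F : I → Type)
      [∀ i, Field (F i)] [∀ i, NumberField (F i)] [∀ i, IsCMField (F i)] (π : ∀ i, F i),
      0 < a → (∀ i, ℚ⟮π i⟯ = ⊤) →
      (∀ i, π i * IsCMField.complexConj (F i) (π i) = (p : F i) ^ a) →
      (∀ i, OddAbsolutelyIrreducible (F i)) → (∀ i i', i ≠ i' → Unrelated (F i) (F i')) →
      (∀ i, HasOtherSlope p a (π i)) →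
      SplitsFor p a F π (fun w h => ∀ i, SmallFor p a π w h i)) ∧
    ∀ (h : ℕ → ℕ) (D : ℕ),
      (SmallHodge 1 h D ↔ h 0 + h 1 < D) ∧
      (h 2 = h 0 → (SmallHodge 2 h D ↔ 4 * h 0 < D)) ∧
      (h 3 = h 0 → h 2 = h 1 → (SmallHodge 3 h D ↔ 2 * (9 * h 0 + h 1) < D)) := by
  have hgen : ∀ (p : ℕ) [Fact p.Prime] (a : ℕ) (I : Type) [Fintype I] (F : I → Type)
      [∀ i, Field (F i)] [∀ i, NumberField (F i)] [∀ i, IsCMField (F i)] (π : ∀ i, F i),
      0 < a → (∀ i, ℚ⟮π i⟯ = ⊤) →
      (∀ i, π i * IsCMField.complexConj (F i) (π i) = (p : F i) ^ a) →
      (∀ i, OddAbsolutelyIrreducible (F i)) → (∀ i i', i ≠ i' → Unrelated (F i) (F i')) →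
      (∀ i, HasOtherSlope p a (π i)) →
      SplitsFor p a F π (fun w h => ∀ i, SmallFor p a π w h i) := by
    intro p _ a I _ F _ _ _ π ha hgen hw habs hun hns k _ _ V _ _ _ M _ _ _ Γ _ ρ τ χ γ hp w h f hf
      hfγ hsm
    exact split_of_deviation ha hgen hw habs hun hns ρ τ χ γ hp f hf.ne_zero hfγ
      fun α hα i => good_of_hodge ha hf hα i (habs i).1 (hsm i)
  refine ⟨?_, hgen, ?_⟩
  · intro p _ a I _ F _ _ _ π ha hgn hw habs hun hord k _ _ V _ _ _ M _ _ _ Γ _ ρ τ χ γ hp w h f hf
      hfγ hsm
    exact hgen p a I F π ha hgn hw habs hun (fun i => other_of_ordinary ha (hord i)) k V M Γ ρ τ χ γ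
      hp w h f hf hfγ fun i => smallFor_of_ordinary ha hord i (hsm i)
  · intro h D
    refine ⟨?_, fun h2 => ?_, fun h3 h2 => ?_⟩
    · simp only [SmallHodge, spread, Finset.sum_range_succ, Finset.sum_range_zero]
      have : ¬ Even 1 := by decide
      constructor
      · rintro (h1 | ⟨h1, -⟩)
        · push_cast at h1
          omega
        · exact absurd h1 this
      · intro h1
        left
        push_cast
        omega
    · simp only [SmallHodge, spread, Finset.sum_range_succ, Finset.sum_range_zero, h2]
      constructor
      · rintro (h1 | ⟨-, h1⟩) <;> push_cast at h1 <;> omega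
      · intro h1
        right
        refine ⟨even_two, ?_⟩
        push_cast
        omega
    · simp only [SmallHodge, spread, Finset.sum_range_succ, Finset.sum_range_zero, h3, h2]
      have : ¬ Even 3 := by decide
      constructor
      · rintro (h1 | ⟨h1, -⟩)
        · push_cast at h1
          omega
        · exact absurd h1 this
      · intro h1
        left
        push_cast
        omega

end Pool.Agent.Results.MP_640417_ag.TimesSmallHodgeNumbers
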